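import Pool.Agent.PFE.StmtsS

/-!
# Squad PFE, block S, row SGC (helper64): the graded algebra of a corner
-/

set_option autoImplicit false

open scoped BigOperators TensorProduct

noncomputable section

namespace Pool.Agent.PFE.H64

open Pool.Agent.PFC Pool.Agent.PFE Pool.Agent.PFE.S

section corner

variable {F A : Type} [Field F] [Ring A] [Algebra F A]

/-- the corner `j A j` as a subspace -/
def crn (F : Type) {A : Type} [Field F] [Ring A] [Algebra F A] (j : A) : Submodule F A where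
  carrier := {a | j * a = a ∧ a * j = a}
  add_mem' := by
    rintro a b ⟨h1, h2⟩ ⟨h3, h4⟩
    exact ⟨by rw [mul_add, h1, h3], by rw [add_mul, h2, h4]⟩
  zero_mem' := ⟨mul_zero _, zero_mul _⟩
  smul_mem' := by
    rintro c a ⟨h1, h2⟩
    exact ⟨by rw [mul_smul_comm, h1], by rw [smul_mul_assoc, h2]⟩

theorem crn_mul {j a b : A} (ha : a ∈ crn F j) (hb : b ∈ crn F j) : a * b ∈ crn F j :=
  ⟨by rw [← mul_assoc, ha.1], by rw [mul_assoc, hb.2]⟩

/-- the ring structure of the corner -/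
@[reducible] def crnRing (j : A) (hj : j * j = j) : Ring (crn F j) :=
  { (inferInstance : AddCommGroup (crn F j)) with
    mul := fun a b => ⟨a.1 * b.1, crn_mul a.2 b.2⟩
    one := ⟨j, hj, hj⟩
    mul_assoc := fun a b c => Subtype.ext (mul_assoc a.1 b.1 c.1)
    one_mul := fun a => Subtype.ext a.2.1
    mul_one := fun a => Subtype.ext a.2.2
    left_distrib := fun a b c => Subtype.ext (mul_add a.1 b.1 c.1)
    right_distrib := fun a b c => Subtype.ext (add_mul a.1 b.1 c.1)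
    zero_mul := fun a => Subtype.ext (zero_mul a.1)
    mul_zero := fun a => Subtype.ext (mul_zero a.1) }

end corner

section gr

variable {F V V1 : Type} [Field F] [CommGroup V] [CommGroup V1] [Fintype V1]

theorem tj_ap {A : Type} [Ring A] [Algebra F A] (α : V →* A) (i : V1 →* V) (σ : MulAut V1)
    (v : V1) (a : A) : tj F α i σ v a = α (i v) * (a * α (i (σ v))⁻¹) := rfl

variable {Y Y' : IA F V} {i : V1 →* V} {j : Y.A} {κ : Y'.A →ₗ[F] Y.A}

theorem cor_jj (hC : Cor Y Y' j κ) : j * j = j := by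
  rw [← hC.one, ← hC.mul, mul_one]

theorem cor_l (hC : Cor Y Y' j κ) (a : Y'.A) : j * κ a = κ a := by
  rw [← hC.one, ← hC.mul, one_mul]

theorem cor_r (hC : Cor Y Y' j κ) (a : Y'.A) : κ a * j = κ a := by
  rw [← hC.one, ← hC.mul, mul_one]

theorem cor_il (hC : Cor Y Y' j κ) (v : V) (a : Y'.A) : κ (Y'.ι v * a) = Y.ι v * κ a := by
  rw [hC.mul, hC.cov, mul_assoc, cor_l hC]

theorem cor_ir (hC : Cor Y Y' j κ) (v : V) (a : Y'.A) : κ (a * Y'.ι v) = κ a * Y.ι v := by
  rw [hC.mul, hC.cov, hC.com, ← mul_assoc, cor_r hC]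

theorem cor_tj (hC : Cor Y Y' j κ) (σ : MulAut V1) (v : V1) (a : Y'.A) :
    κ (tj F Y'.ι i σ v a) = tj F Y.ι i σ v (κ a) := by
  rw [tj_ap, tj_ap, cor_il hC, cor_ir hC]

theorem cor_tr (hC : Cor Y Y' j κ) (σ : MulAut V1) (a : Y'.A) :
    κ (Tr F Y'.ι i σ a) = Tr F Y.ι i σ (κ a) := by
  unfold Tr
  rw [LinearMap.sum_apply, LinearMap.sum_apply, map_sum]
  exact Finset.sum_congr rfl (fun v _ => cor_tj hC σ v a)

theorem cor_nt (hC : Cor Y Y' j κ) (σ : MulAut V1) (a : Y'.A) :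
    a ∈ Nt F Y'.ι i σ ↔ κ a ∈ Nt F Y.ι i σ := by
  constructor
  · intro h v hv
    rw [← cor_tj hC, h v hv]
  · intro h v hv
    apply hC.inj
    rw [cor_tj hC, h v hv]

end gr

theorem sgc : SgcStmt := by
  intro hT F V V1 C S _ _ _ _ _ _ _ _ Y Y' i θ q j κ hC hS
  obtain ⟨t1, t2, -, -, -, t6, t7⟩ := hT.1 F V V1 Y.A Y.ι i
  have hjj := cor_jj hC
  have hj1 : j ∈ Nt F Y.ι i 1 := by
    rw [t1]
    intro v
    exact hC.com (i v)
  have hj1' : j ∈ Nt F Y.ι i (θ 1) := by rw [map_one]; exact hj1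
  obtain ⟨J, hJ⟩ : ∃ J, J = q 1 j := ⟨_, rfl⟩
  have hJJ : J * J = J := by
    rw [hJ, ← hS.mul 1 1 j hj1' j hj1', mul_one, hjj]
  have ql : ∀ c, ∀ a ∈ Nt F Y.ι i (θ c), q c (j * a) = J * q c a := by
    intro c a ha
    have := hS.mul 1 c j hj1' a ha
    rw [one_mul] at this
    rw [this, hJ]
  have qr : ∀ c, ∀ a ∈ Nt F Y.ι i (θ c), q c (a * j) = q c a * J := by
    intro c a ha
    have := hS.mul c 1 a ha j hj1'
    rw [mul_one] at this
    rw [this, hJ]
  have njl : ∀ σ, ∀ a ∈ Nt F Y.ι i σ, j * a ∈ Nt F Y.ι i σ := by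
    intro σ a ha
    have := t2 1 σ j a hj1 ha
    rwa [mul_one] at this
  have njr : ∀ σ, ∀ a ∈ Nt F Y.ι i σ, a * j ∈ Nt F Y.ι i σ := by
    intro σ a ha
    have := t2 σ 1 a j ha hj1
    rwa [one_mul] at this
  have qlr : ∀ c, ∀ a ∈ Nt F Y.ι i (θ c), q c (j * a * j) = J * q c a * J := by
    intro c a ha
    rw [qr c _ (njl _ a ha), ql c a ha]
  -- lifting of `j a j`
  have hlift : ∀ a : Y.A, ∃ b : Y'.A, κ b = j * a * j := by
    intro a
    apply hC.ran
    · rw [← mul_assoc, ← mul_assoc, hjj]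
    · rw [mul_assoc, hjj]
  have hliftN : ∀ σ, ∀ a ∈ Nt F Y.ι i σ, ∀ b : Y'.A, κ b = j * a * j → b ∈ Nt F Y'.ι i σ := by
    intro σ a ha b hb
    rw [cor_nt hC, hb]
    exact njr σ _ (njl σ a ha)
  -- the ideals
  have hI1 : ∀ σ, ∀ a ∈ It F Y'.ι i σ, κ a ∈ It F Y.ι i σ := by
    intro σ a ha
    have hle : It F Y'.ι i σ ≤ (It F Y.ι i σ).comap κ := by
      unfold It
      rw [Submodule.span_le]
      rintro x (⟨a, rfl⟩ | ⟨v, a, ha, rfl⟩)
      · refine Submodule.subset_span (Or.inl ⟨κ a, ?_⟩)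
        exact cor_tr hC σ a
      · refine Submodule.subset_span (Or.inr ⟨v, κ a, (cor_nt hC σ a).1 ha, ?_⟩)
        rw [map_sub, cor_il hC]
    exact hle ha
  have hI2 : ∀ σ, ∀ x ∈ It F Y.ι i σ, ∃ b ∈ It F Y'.ι i σ, κ b = j * x * j := by
    intro σ x hx
    have hle : It F Y.ι i σ ≤ ((It F Y'.ι i σ).map κ).comap
        ((LinearMap.mulRight F j).comp (LinearMap.mulLeft F j)) := by
      unfold It
      rw [Submodule.span_le]
      rintro x (⟨a, rfl⟩ | ⟨v, a, ha, rfl⟩)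
      · obtain ⟨b, hb⟩ := hlift a
        refine ⟨Tr F Y'.ι i σ b, Submodule.subset_span (Or.inl ⟨b, rfl⟩), ?_⟩
        change κ (Tr F Y'.ι i σ b) = j * Tr F Y.ι i σ a * j
        rw [cor_tr hC, hb, t6 1 σ j a hj1, mul_one, t7 σ 1 (j * a) j hj1, one_mul]
      · obtain ⟨b, hb⟩ := hlift a
        refine ⟨Y'.ι (i v) * b - b,
          Submodule.subset_span (Or.inr ⟨v, b, hliftN σ a ha b hb, rfl⟩), ?_⟩
        change κ (Y'.ι (i v) * b - b) = j * (Y.ι (i v) * a - a) * j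
        rw [map_sub, cor_il hC, hb, mul_sub, sub_mul]
        congr 1
        rw [← mul_assoc (Y.ι (i v)), ← mul_assoc (Y.ι (i v)), hC.com, mul_assoc j (Y.ι (i v)) a]
    obtain ⟨b, hb, hb2⟩ := hle hx
    exact ⟨b, hb, hb2⟩
  have hI : ∀ σ, ∀ a : Y'.A, κ a ∈ It F Y.ι i σ ↔ a ∈ It F Y'.ι i σ := by
    intro σ a
    refine ⟨fun h => ?_, hI1 σ a⟩
    obtain ⟨b, hb, hb2⟩ := hI2 σ _ h
    rw [cor_l hC, cor_r hC] at hb2
    rwa [← hC.inj hb2]
  -- the corner ring
  let _ : Ring (crn F J) := crnRing (F := F) J hJJ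
  let _ : Algebra F (crn F J) := Algebra.ofModule
    (fun r x y => Subtype.ext (smul_mul_assoc r x.1 y.1))
    (fun r x y => Subtype.ext (mul_smul_comm r x.1 y.1))
  let q' : C → (Y'.A →ₗ[F] crn F J) := fun c =>
    LinearMap.codRestrict (crn F J)
      (((LinearMap.mulRight F J).comp (LinearMap.mulLeft F J)).comp ((q c).comp κ))
      (fun a => ⟨by
        change J * (J * q c (κ a) * J) = J * q c (κ a) * J
        rw [← mul_assoc, ← mul_assoc, hJJ], by
        change (J * q c (κ a) * J) * J = J * q c (κ a) * J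
        rw [mul_assoc, hJJ]⟩)
  have q'v : ∀ c a, (q' c a).1 = J * q c (κ a) * J := fun c a => rfl
  have q'n : ∀ c, ∀ a ∈ Nt F Y'.ι i (θ c), (q' c a).1 = q c (κ a) := by
    intro c a ha
    rw [q'v, ← qlr c (κ a) ((cor_nt hC _ a).1 ha), cor_l hC, cor_r hC]
  have hnt : ∀ c d, ∀ a ∈ Nt F Y'.ι i (θ c), ∀ b ∈ Nt F Y'.ι i (θ d),
      a * b ∈ Nt F Y'.ι i (θ (c * d)) := by
    intro c d a ha b hb
    rw [cor_nt hC, hC.mul]
    have := t2 (θ c) (θ d) (κ a) (κ b) ((cor_nt hC _ a).1 ha) ((cor_nt hC _ b).1 hb)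
    rwa [← map_mul, mul_comm d c] at this
  have hsum : ∀ a : C → Y'.A, ((∑ c, q' c (a c) : crn F J)).1 = ∑ c, (q' c (a c)).1 := by
    intro a
    exact map_sum (crn F J).subtype (fun c => q' c (a c)) Finset.univ
  refine ⟨crn F J, inferInstance, inferInstance, (crn F J).subtype, q', ?_, ?_⟩
  · rw [← hJ]
    exact
      { inj := Subtype.coe_injective
        mul := fun a b => rfl
        one := rfl
        ran := fun a h1 h2 => ⟨⟨a, h1, h2⟩, rfl⟩ }
  · refine ⟨?_, ?_, ?_, ?_⟩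
    · rintro ⟨x, hx1, hx2⟩
      obtain ⟨a, ha, hax⟩ := hS.sur x
      choose b hb using fun c => hlift (a c)
      have hbN : ∀ c, b c ∈ Nt F Y'.ι i (θ c) := fun c => hliftN _ _ (ha c) _ (hb c)
      refine ⟨b, hbN, ?_⟩
      apply Subtype.ext
      rw [hsum]
      change ∑ c, (q' c (b c)).1 = x
      have h3 : ∀ c, (q' c (b c)).1 = J * q c (a c) * J := by
        intro c
        rw [q'n c _ (hbN c), hb, qlr c _ (ha c)]
      rw [Finset.sum_congr rfl (fun c _ => h3 c), ← Finset.sum_mul, ← Finset.mul_sum, hax, hx1,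
        hx2]
    · intro a ha
      have h4 : (∑ c, q' c (a c) : crn F J) = 0 ↔ ∑ c, q c (κ (a c)) = 0 := by
        have h5 : ((∑ c, q' c (a c) : crn F J)).1 = ∑ c, q c (κ (a c)) := by
          rw [hsum]
          exact Finset.sum_congr rfl (fun c _ => q'n c _ (ha c))
        rw [← h5]
        constructor
        · intro h
          rw [h]
          rfl
        · intro h
          exact Subtype.ext h
      rw [h4, hS.ker (fun c => κ (a c)) (fun c => (cor_nt hC _ _).1 (ha c))]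
      exact forall_congr' (fun c => hI (θ c) (a c))
    · intro c d a ha b hb
      apply Subtype.ext
      change (q' (c * d) (a * b)).1 = (q' c a).1 * (q' d b).1
      rw [q'n _ _ (hnt c d a ha b hb), q'n _ _ ha, q'n _ _ hb, hC.mul,
        hS.mul c d _ ((cor_nt hC _ a).1 ha) _ ((cor_nt hC _ b).1 hb)]
    · apply Subtype.ext
      change J * q 1 (κ 1) * J = J
      rw [hC.one, ← hJ, hJJ, hJJ]

end Pool.Agent.PFE.H64
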